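import Pool.Agent.L5helper59.DM.Defs

set_option autoImplicit false

open MvPolynomial Filter Topology

namespace Pool.Agent.L5helper59.DM

private lemma af_totalDegree {ι : Type} [Fintype ι] (a : ℂ) (b : ι → ℂ) :
    (af a b).totalDegree ≤ 1 := by
  unfold af
  refine (totalDegree_add _ _).trans (max_le ?_ ?_)
  · simp
  · refine (totalDegree_finsetSum _ _).trans (Finset.sup_le fun i _ => ?_)
    refine (totalDegree_mul _ _).trans ?_
    rw [totalDegree_C, totalDegree_X]

private lemma sb_totalDegree {τ ι : Type} [Fintype τ] [Fintype ι] (a : τ → ℂ) (b : τ → ι → ℂ)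
    (P : MvPolynomial τ ℂ) : (sb a b P).totalDegree ≤ P.totalDegree := by
  unfold sb
  rw [aeval_def, eval₂_eq']
  refine (totalDegree_finsetSum _ _).trans (Finset.sup_le fun d hd => ?_)
  refine (totalDegree_mul _ _).trans ?_
  have h1 : (algebraMap ℂ (MvPolynomial ι ℂ) (coeff d P)).totalDegree = 0 := totalDegree_C _
  rw [h1, zero_add]
  refine (totalDegree_finsetProd _ _).trans ?_
  have h2 : ∑ v, d v ≤ P.totalDegree := by
    have h3 := le_totalDegree hd
    rwa [Finsupp.sum_fintype _ _ (fun _ => rfl)] at h3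
  refine le_trans (Finset.sum_le_sum fun v _ => ?_) h2
  refine (totalDegree_pow _ _).trans ?_
  calc d v * (af (a v) (b v)).totalDegree ≤ d v * 1 := Nat.mul_le_mul_left _ (af_totalDegree _ _)
    _ = d v := mul_one _

private lemma af_coeff_tendsto {ι : Type} [Fintype ι] (a : ℂ) (b : ι → ℂ) (ak : ℕ → ℂ)
    (bk : ℕ → ι → ℂ) (ha : Tendsto ak atTop (𝓝 a)) (hb : ∀ i, Tendsto (fun k => bk k i) atTop (𝓝 (b i)))
    (d : ι →₀ ℕ) : Tendsto (fun k => coeff d (af (ak k) (bk k))) atTop (𝓝 (coeff d (af a b))) := by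
  classical
  have h : ∀ (a : ℂ) (b : ι → ℂ), coeff d (af a b) =
      (if 0 = d then a else 0) + ∑ i, b i * coeff d (X i : MvPolynomial ι ℂ) := by
    intro a b
    unfold af
    rw [coeff_add, coeff_C, coeff_sum]
    congr 1
    exact Finset.sum_congr rfl fun i _ => coeff_C_mul _ _ _
  simp only [h]
  apply Tendsto.add
  · split_ifs
    · exact ha
    · exact tendsto_const_nhds
  · exact tendsto_finsetSum _ fun i _ => (hb i).mul_const _

private lemma sb_coeff_tendsto {τ ι : Type} [Fintype τ] [Fintype ι] (a : τ → ℂ) (b : τ → ι → ℂ)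
    (ak : ℕ → τ → ℂ) (bk : ℕ → τ → ι → ℂ) (ha : ∀ v, Tendsto (fun k => ak k v) atTop (𝓝 (a v)))
    (hb : ∀ v i, Tendsto (fun k => bk k v i) atTop (𝓝 (b v i))) (P : MvPolynomial τ ℂ) :
    ∀ d, Tendsto (fun k => coeff d (sb (ak k) (bk k) P)) atTop (𝓝 (coeff d (sb a b P))) := by
  classical
  induction P using MvPolynomial.induction_on with
  | C c =>
    intro d
    simp only [sb, aeval_C]
    exact tendsto_const_nhds
  | add p q hp hq =>
    intro d
    simp only [map_add, coeff_add]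
    exact (hp d).add (hq d)
  | mul_X p v hp =>
    intro d
    have h : ∀ (a : τ → ℂ) (b : τ → ι → ℂ), sb a b (p * X v) = sb a b p * af (a v) (b v) := by
      intro a b
      rw [map_mul]
      congr 1
      simp [sb]
    simp only [h, coeff_mul]
    apply tendsto_finsetSum
    intro x _
    exact (hp _).mul (af_coeff_tendsto (a v) (b v) (fun k => ak k v) (fun k => bk k v) (ha v) (hb v) _)

private lemma sb_eval {τ ι : Type} [Fintype τ] [Fintype ι] (a : τ → ℂ) (b : τ → ι → ℂ)
    (x : ι → ℂ) (P : MvPolynomial τ ℂ) :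
    eval x (sb a b P) = eval (fun v => a v + ∑ i, b v i * x i) P := by
  induction P using MvPolynomial.induction_on with
  | C c => simp [sb]
  | add p q hp hq => rw [map_add, map_add, map_add, hp, hq]
  | mul_X p v hp =>
    rw [map_mul, map_mul, map_mul, hp]
    congr 1
    simp [sb, af]

/-- D4 -/
theorem sb_tendsto {τ ι : Type} [Fintype τ] [Fintype ι] (a : τ → ℂ) (b : τ → ι → ℂ)
    (ak : ℕ → τ → ℂ) (bk : ℕ → τ → ι → ℂ) (ha : ∀ v, Tendsto (fun k => ak k v) atTop (𝓝 (a v)))
    (hb : ∀ v i, Tendsto (fun k => bk k v i) atTop (𝓝 (b v i))) (P : MvPolynomial τ ℂ) :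
    (∀ k, (sb (ak k) (bk k) P).totalDegree ≤ P.totalDegree) ∧
      (∀ d, Tendsto (fun k => coeff d (sb (ak k) (bk k) P)) atTop (𝓝 (coeff d (sb a b P)))) ∧
      ∀ (x : ι → ℂ) (xk : ℕ → ι → ℂ), (∀ i, Tendsto (fun k => xk k i) atTop (𝓝 (x i))) →
        Tendsto (fun k => eval (xk k) (sb (ak k) (bk k) P)) atTop (𝓝 (eval x (sb a b P))) := by
  refine ⟨fun k => sb_totalDegree _ _ _, sb_coeff_tendsto a b ak bk ha hb P, ?_⟩
  intro x xk hx
  simp only [sb_eval]
  refine ((MvPolynomial.continuous_eval P).tendsto _).comp (tendsto_pi_nhds.2 fun v => ?_)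
  exact (ha v).add (tendsto_finsetSum _ fun i _ => (hb v i).mul (hx i))

end Pool.Agent.L5helper59.DM
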